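import Mathlib

set_option autoImplicit false

open MeasureTheory ProbabilityTheory Filter Topology

namespace Pool.Agent.Y244.TRI

/-- independent bits, the bit `i` is `true` with probability `p i` -/
noncomputable def bits {ι : Type} (p : ι → unitInterval) : Measure (ι → Bool) :=
  Measure.infinitePi (fun i : ι => bernoulliMeasure true false (p i))

instance {ι : Type} (p : ι → unitInterval) : IsProbabilityMeasure (bits p) := by
  unfold bits; infer_instance

/-- sigma-algebra generated by the coordinates in `I`. -/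
@[reducible] def cs {E : Type} (I : Set E) : MeasurableSpace (E → Bool) :=
  ⨆ i ∈ I, MeasurableSpace.comap (fun ω : E → Bool => ω i) inferInstance

theorem cs_mono {E : Type} {I J : Set E} (h : I ⊆ J) : cs I ≤ cs J :=
  biSup_mono (fun _ hi => h hi)

theorem cs_coord {E : Type} {I : Set E} {e : E} (he : e ∈ I) (b : Bool) :
    MeasurableSet[cs I] {ω : E → Bool | ω e = b} := by
  have h : MeasurableSpace.comap (fun ω : E → Bool => ω e) inferInstance ≤ cs I :=
    le_iSup₂_of_le e he le_rfl
  apply h
  exact ⟨{b}, MeasurableSet.singleton b, by ext; simp⟩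

variable {ι : Type}

theorem iIndep_coord (p : ι → unitInterval) :
    iIndep (fun i : ι => MeasurableSpace.comap (fun ω : ι → Bool => ω i) inferInstance)
      (bits p) := by
  have := iIndepFun_infinitePi (ι := ι) (Ω := fun _ => Bool)
    (P := fun i => bernoulliMeasure true false (p i)) (X := fun _ b => b) (by fun_prop)
  exact this

theorem indep_cs (p : ι → unitInterval) {I J : Set ι} (h : Disjoint I J) :
    Indep (cs I) (cs J) (bits p) :=
  indep_iSup_of_disjoint (fun i => (measurable_pi_apply i).comap_le) (iIndep_coord p) h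

/-- some coordinate in `F` is open -/
def SomeOpen (F : Finset ι) : Set (ι → Bool) := {ω | ∃ e ∈ F, ω e = true}

theorem someOpen_compl (F : Finset ι) :
    (SomeOpen F)ᶜ = Set.pi (F : Set ι) (fun _ => {false}) := by
  ext ω
  simp only [SomeOpen, Set.mem_compl_iff, Set.mem_setOf_eq, not_exists, not_and,
    Bool.not_eq_true, Set.mem_pi, Finset.mem_coe, Set.mem_singleton_iff]

theorem someOpen_meas (F : Finset ι) : MeasurableSet[cs (F : Set ι)] (SomeOpen F) := by
  have : SomeOpen F = ⋃ e ∈ F, {ω : ι → Bool | ω e = true} := by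
    ext ω; simp [SomeOpen]
  rw [this]
  refine @Finset.measurableSet_biUnion _ _ (cs (F : Set ι)) _ F fun e he => ?_
  exact cs_coord (I := (F : Set ι)) (Finset.mem_coe.2 he) true

theorem cs_le (I : Set ι) : cs I ≤ (MeasurableSpace.pi : MeasurableSpace (ι → Bool)) :=
  iSup₂_le fun i _ => (measurable_pi_apply i).comap_le

theorem measure_someOpen {p : ι → unitInterval} (F : Finset ι) {b : ℝ}
    (hb : b ≤ ∏ e ∈ F, (1 - (p e : ℝ))) : (bits p).real (SomeOpen F) ≤ Real.exp (-b) := by
  have hm : MeasurableSet (SomeOpen F) := cs_le _ _ (someOpen_meas F)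
  have h1 : (bits p).real (SomeOpen F)ᶜ = ∏ e ∈ F, (1 - (p e : ℝ)) := by
    rw [someOpen_compl, measureReal_def, bits,
      Measure.infinitePi_pi _ (fun _ _ => MeasurableSet.singleton _), ENNReal.toReal_prod]
    refine Finset.prod_congr rfl fun e _ => ?_
    rw [← measureReal_def, bernoulliMeasure_real_apply_of_notMem_of_mem] <;> simp
  have h3 := probReal_add_probReal_compl (μ := bits p) hm
  have h4 := Real.add_one_le_exp (-b)
  linarith

/-- the events `SomeOpen (F k)` for disjoint sets `F k` are independent -/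
theorem measure_inter {p : ι → unitInterval} (F : ℕ → Finset ι) {b : ℕ → ℝ}
    (K : ℕ) (hb : ∀ k, K ≤ k → b k ≤ ∏ e ∈ F k, (1 - (p e : ℝ)))
    (hd : ∀ j k, j < k → Disjoint (F j) (F k)) (n : ℕ) :
    (bits p).real (⋂ k ∈ Finset.range n, SomeOpen (F (K + k))) ≤
      Real.exp (-∑ k ∈ Finset.range n, b (K + k)) := by
  induction n with
  | zero => simp
  | succ n ih =>
    have e : (⋂ k ∈ Finset.range (n + 1), SomeOpen (F (K + k))) =
        (⋂ k ∈ Finset.range n, SomeOpen (F (K + k))) ∩ SomeOpen (F (K + n)) := by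
      rw [Finset.range_add_one, Finset.set_biInter_insert, Set.inter_comm]
    rw [e]
    set I : Set ι := ⋃ k ∈ Finset.range n, (F (K + k) : Set ι) with hI
    have hA : MeasurableSet[cs I] (⋂ k ∈ Finset.range n, SomeOpen (F (K + k))) := by
      refine @Finset.measurableSet_biInter _ _ (cs I) _ _ fun k hk => ?_
      refine cs_mono ?_ _ (someOpen_meas (F (K + k)))
      intro a ha
      exact Set.mem_biUnion (Finset.mem_coe.2 hk) ha
    have hdisj : Disjoint I (F (K + n) : Set ι) := by
      rw [Set.disjoint_left]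
      intro a h1 h2
      simp only [hI, Set.mem_iUnion, exists_prop] at h1
      obtain ⟨k, hk, hak⟩ := h1
      have hk' := Finset.mem_range.1 hk
      have := hd (K + k) (K + n) (by omega)
      exact Finset.disjoint_left.1 this (Finset.mem_coe.1 hak) (Finset.mem_coe.1 h2)
    have h4 := (Indep_iff _ _ _).1 (indep_cs p hdisj) _ _ hA (someOpen_meas (F (K + n)))
    rw [measureReal_def, h4, ENNReal.toReal_mul, ← measureReal_def, ← measureReal_def,
      Finset.sum_range_succ, neg_add, Real.exp_add]
    exact mul_le_mul ih (measure_someOpen _ (hb _ (by omega))) measureReal_nonneg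
      (Real.exp_pos _).le

/-- an event contained in all `SomeOpen (F k)`, `k ≥ K`, is null -/
theorem null_of_subset {p : ι → unitInterval} (F : ℕ → Finset ι) {b : ℕ → ℝ}
    (K : ℕ) (hb : ∀ k, K ≤ k → b k ≤ ∏ e ∈ F k, (1 - (p e : ℝ)))
    (hd : ∀ j k, j < k → Disjoint (F j) (F k))
    (hdiv : Tendsto (fun n => ∑ k ∈ Finset.range n, b (K + k)) atTop atTop)
    {A : Set (ι → Bool)}
    (hA : ∀ ω ∈ A, ∀ k, K ≤ k → ω ∈ SomeOpen (F k)) : bits p A = 0 := by
  have hle : ∀ n : ℕ, (bits p).real A ≤ Real.exp (-∑ k ∈ Finset.range n, b (K + k)) := by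
    intro n
    refine (measureReal_mono ?_ (measure_ne_top _ _)).trans (measure_inter F K hb hd n)
    intro ω hω
    simp only [Set.mem_iInter, Finset.mem_range]
    intro k _
    exact hA ω hω (K + k) (by omega)
  have hlim : Tendsto (fun n => Real.exp (-∑ k ∈ Finset.range n, b (K + k))) atTop (𝓝 0) :=
    Real.tendsto_exp_neg_atTop_nhds_zero.comp hdiv
  have h0 : (bits p).real A = 0 := le_antisymm (ge_of_tendsto' hlim hle) measureReal_nonneg
  rw [measureReal_def, ENNReal.toReal_eq_zero_iff] at h0
  exact h0.resolve_right (measure_ne_top _ _)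

/-- the harmonic series, shifted and scaled -/
theorem harmonic_div {c : ℝ} (hc : 0 < c) (K m : ℕ) (hm : 1 ≤ m) :
    Tendsto (fun n => ∑ k ∈ Finset.range n, c / (((K + k : ℕ) : ℝ) + m)) atTop atTop := by
  have h1 : ¬ Summable (fun k : ℕ => c / (((K + k : ℕ) : ℝ) + m)) := by
    intro h
    have h2 : Summable (fun k : ℕ => 1 / ((k + (K + m) : ℕ) : ℝ)) := by
      refine (h.mul_left (1 / c)).congr fun k => ?_
      push_cast
      have : ((K : ℝ) + k + m) ≠ 0 := by positivity
      field_simp
      ring
    rw [summable_nat_add_iff (f := fun k : ℕ => 1 / (k : ℝ)) (K + m)] at h2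
    exact Real.not_summable_one_div_natCast h2
  exact (not_summable_iff_tendsto_nat_atTop_of_nonneg (fun k => by positivity)).1 h1

end Pool.Agent.Y244.TRI
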